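import Pool.Agent.Q288.Bal.Cls

/-!
# The gap above one third for a class closed under sums and substitution

`balance` is the balance constant and `InD` the class `𝒟` of the problem.  `Cls K` is the smallest
class of posets, closed under isomorphism, which contains all nonempty posets of width at most two,
all semiorders, all interval orders of width at least `45000` and all posets in which some element
is incomparable to at least `K` elements, which is closed under disjoint sums and direct sums, and
which contains every poset that has an autonomous subset in the class but not in `𝒟` (for instance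
every poset in which one element is replaced by such a poset).

There is an absolute constant `K` such that every poset in `Cls K` is in `𝒟` or has balance constant
at least `1/3 + 1/3000000`.  Consequently, for `c ≤ 1/3 + 1/3000000`, the gap property with the
constant `c` holds for all finite posets as soon as it holds for the irreducible ones (connected, not
a direct sum, all nonempty proper autonomous subsets in `𝒟`) which are not in `Cls K`; these have
width at least three, every element of them is incomparable to fewer than `K` elements, they are not
semiorders, and if they are interval orders their width is less than `45000`.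
-/

set_option autoImplicit false

namespace Pool.Agent.Results.MP_33fb9b_co.ClosureGap

open Pool.Agent.H13R3.WB Pool.Agent.H931R3.Bal Pool.Agent.TH447.KS Pool.Agent.Q288.Bal

theorem result : ∃ K : ℕ,
    -- the gap in the class
    (∀ (P : Type) [Fintype P] [PartialOrder P], Cls K P → InD P ∨ 1 / 3 + 1 / 3000000 ≤ balance P) ∧
    -- the reduction
    (∀ c : ℝ, c ≤ 1 / 3 + 1 / 3000000 →
      (∀ (P : Type) [Fintype P] [PartialOrder P] [Nonempty P], Irreducible P → ¬ Cls K P →
        (∀ x : P, Nat.card {y : P // ¬ x ≤ y ∧ ¬ y ≤ x} < K) →
        (∃ s : Finset P, IsAntichain (· ≤ ·) (s : Set P) ∧ s.card = 3) →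
        ¬ IsSemiorder P →
        (IsIntervalOrder P → ∀ s : Finset P, IsAntichain (· ≤ ·) (s : Set P) → s.card < 45000) →
        c ≤ balance P) →
      ∀ (P : Type) [Fintype P] [PartialOrder P] [Nonempty P], InD P ∨ c ≤ balance P) := by
  obtain ⟨K, hK⟩ := Pool.Agent.Q288.Bal.exists_good
  refine ⟨K, fun P _ _ h => (cls_gap hK h).2, fun c hc h => cls_reduction hK hc ?_⟩
  intro P _ _ _ hI hP
  have hb : ¬ Basic K P := fun hb => hP (Cls.basic P hb)
  unfold Basic at hb
  push Not at hb
  obtain ⟨h1, h2, h3, h4⟩ := hb inferInstance
  refine h P hI hP h4 ?_ h2 ?_
  · obtain ⟨s, hs, hs3⟩ := h1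
    obtain ⟨t, hts, ht⟩ := Finset.exists_subset_card_eq (show 3 ≤ s.card by omega)
    exact ⟨t, fun a ha b hb => hs (hts ha) (hts hb), ht⟩
  · intro hint s hs
    by_contra hc
    classical
    let S : Finset (Finset P) := Finset.univ.filter fun t => IsAntichain (· ≤ ·) (t : Set P)
    obtain ⟨A, hA, hmax⟩ := Finset.exists_max_image S Finset.card
      ⟨s, Finset.mem_filter.2 ⟨Finset.mem_univ _, hs⟩⟩
    have hsA : s.card ≤ A.card := hmax s (Finset.mem_filter.2 ⟨Finset.mem_univ _, hs⟩)
    exact h3 hint A.card (by omega) ⟨⟨A, (Finset.mem_filter.1 hA).2, rfl⟩,
      fun t ht => hmax t (Finset.mem_filter.2 ⟨Finset.mem_univ _, ht⟩)⟩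

end Pool.Agent.Results.MP_33fb9b_co.ClosureGap
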