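import Pool.Agent.Q236.TP.Gap

/-!
# The gap question has a finite verification, and the optimal gap constant is computable

Let `gD` be the infimum of the balance constants of the finite nonempty posets outside `𝒟` (so Q1 asks
whether `gD > 1/3`) and `mD n` the least balance constant of such a poset with at most `n` elements.
Let `g3` and `m3 n` be the corresponding numbers for the posets with an antichain of three elements.
There is an absolute constant `B` with the following properties.

* `gD ≤ mD n ≤ gD + n ^ (-1/B)` and `g3 ≤ m3 n ≤ g3 + n ^ (-1/B)` for all `n ≥ 7`, and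
  `gD = min γ g3` with the constant `γ = 0.3488...` of width two (starting result `WidthTwoExact`).
* Q1 holds if and only if for some `n ≥ 7` all posets outside `𝒟` with at most `n` elements have
  balance constant at least `c`, for some `c > 1/3 + n ^ (-1/B)`; equivalently if this finite test is
  passed by the posets with an antichain of three elements.
* If the gap is at least `ε`, then the test is passed for every `n ≥ (2/ε) ^ B`.

Proof.  Posets which are not `K`-thin have balance constant at least `2/5` (starting result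
`ManyIncomparable`).  In a `K`-thin poset probabilities depend up to `ε` only on a neighbourhood of
radius `O_K(log (1/ε))` (Doeblin's argument for the Markov chain of ideals of a random linear
extension), and a long poset can be shortened by cutting out the piece between two equal windows, away
from an antichain with three elements.  For width two the exact value is known from the starting files.
-/

set_option autoImplicit false

namespace Pool.Agent.Results.MP_33fb9b_co.FiniteVerification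

open Pool.Agent.H13R3.WB Pool.Agent.Q236.TP

theorem result : ∃ B : ℝ, 1 ≤ B ∧
    -- approximation of the optimal constant by posets with at most `n` elements
    (∀ n : ℕ, 7 ≤ n → gD ≤ mD n ∧ mD n ≤ gD + (n : ℝ) ^ (-(1 / B)) ∧
      g3 ≤ m3 n ∧ m3 n ≤ g3 + (n : ℝ) ^ (-(1 / B))) ∧
    gD = min ((10999528681 - 3105 * √433) / 31531330288) g3 ∧
    -- Q1 has a finite verification
    ((∃ ε : ℝ, 0 < ε ∧ ∀ (P : Type) [Fintype P] [PartialOrder P] [Nonempty P], ¬ InD P →
        1 / 3 + ε ≤ balance P) ↔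
      ∃ n : ℕ, 7 ≤ n ∧ 1 / 3 + (n : ℝ) ^ (-(1 / B)) < mD n) ∧
    ((∃ ε : ℝ, 0 < ε ∧ ∀ (P : Type) [Fintype P] [PartialOrder P] [Nonempty P], ¬ InD P →
        1 / 3 + ε ≤ balance P) ↔
      ∃ n : ℕ, 7 ≤ n ∧ 1 / 3 + (n : ℝ) ^ (-(1 / B)) < m3 n) ∧
    -- of polynomial size
    (∀ ε : ℝ, 0 < ε → ε ≤ 1 →
      (∀ (P : Type) [Fintype P] [PartialOrder P] [Nonempty P], ¬ InD P → 1 / 3 + ε ≤ balance P) →
      ∀ n : ℕ, 7 ≤ n → (2 / ε) ^ B ≤ n → 1 / 3 + (n : ℝ) ^ (-(1 / B)) < mD n) := by
  obtain ⟨k, hk, h⟩ := exists_k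
  set B : ℝ := 4 * cEx k with hB
  have hB8 : 8 ≤ B := cEx_big hk
  have hX : Nonempty Pool.Agent.H931R3.Bal.X7 := has3_X7.nonempty
  have quant : ∀ ε : ℝ, 0 < ε → ε ≤ 1 →
      (∀ (P : Type) [Fintype P] [PartialOrder P] [Nonempty P], ¬ InD P → 1 / 3 + ε ≤ balance P) →
      ∀ n : ℕ, 7 ≤ n → (2 / ε) ^ B ≤ n → 1 / 3 + (n : ℝ) ^ (-(1 / B)) < mD n := by
    intro ε hε hε1 hgap n hn hn2
    have hn0 : (0 : ℝ) < n := by exact_mod_cast (by omega : 0 < n)
    have h1 : 1 / 3 + ε ≤ mD n := by
      unfold mD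
      refine le_csInf ⟨balance Pool.Agent.H931R3.Bal.X7, Pool.Agent.H931R3.Bal.X7, inferInstance,
        inferInstance, hX, has3_X7.not_InD, by rw [card_X7]; exact hn, rfl⟩ ?_
      rintro d ⟨P, _, _, _, h1, _, rfl⟩
      exact hgap P h1
    have h2 : (n : ℝ) ^ (-(1 / B)) ≤ ε / 2 := by
      have h3 : 2 / ε ≤ (n : ℝ) ^ (1 / B) := by
        have h4 : ((2 / ε) ^ B) ^ (1 / B) ≤ (n : ℝ) ^ (1 / B) :=
          Real.rpow_le_rpow (by positivity) hn2 (by positivity)
        rwa [← Real.rpow_mul (by positivity), mul_one_div_cancel (by linarith), Real.rpow_one] at h4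
      rw [Real.rpow_neg hn0.le]
      exact (inv_anti₀ (by positivity) h3).trans (by rw [inv_div])
    linarith
  have hgam : (1 : ℝ) / 3 < Pool.Agent.TH153.WX.gam := Pool.Agent.Y400.WR.gam_third
  have hDeq : gD = min Pool.Agent.TH153.WX.gam g3 := gD_eq
  have hback : ∀ c : ℝ, 1 / 3 < c → c ≤ gD →
      ∃ ε : ℝ, 0 < ε ∧ ∀ (P : Type) [Fintype P] [PartialOrder P] [Nonempty P], ¬ InD P →
        1 / 3 + ε ≤ balance P := by
    intro c hc1 hc2
    refine ⟨c - 1 / 3, by linarith, fun P _ _ _ hP => ?_⟩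
    have := gD_le hP
    linarith
  have hfwd : ∀ n : ℕ, 7 ≤ n → mD n ≤ m3 n := by
    intro n hn
    conv_rhs => unfold m3
    refine le_csInf ⟨balance Pool.Agent.H931R3.Bal.X7, Pool.Agent.H931R3.Bal.X7, inferInstance,
      inferInstance, has3_X7, by rw [card_X7]; exact hn, rfl⟩ ?_
    rintro d ⟨P, _, _, h1, h2, rfl⟩
    have := h1.nonempty
    exact mD_le h1.not_InD h2
  have hex : (∃ ε : ℝ, 0 < ε ∧ ∀ (P : Type) [Fintype P] [PartialOrder P] [Nonempty P], ¬ InD P →
        1 / 3 + ε ≤ balance P) →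
      ∃ n : ℕ, 7 ≤ n ∧ 1 / 3 + (n : ℝ) ^ (-(1 / B)) < mD n := by
    rintro ⟨ε, hε, hgap⟩
    obtain ⟨n, hn⟩ := exists_nat_ge (max (7 : ℝ) ((2 / min ε 1) ^ B))
    have h7 : (7 : ℝ) ≤ n := (le_max_left _ _).trans hn
    refine ⟨n, by exact_mod_cast h7, quant (min ε 1) (lt_min hε one_pos) (min_le_right _ _)
      (fun P _ _ _ hP => ?_) n (by exact_mod_cast h7) ((le_max_right _ _).trans hn)⟩
    have := hgap P hP
    have := min_le_left ε 1
    linarith
  refine ⟨B, by linarith, ?_, hDeq, ⟨hex, ?_⟩, ⟨?_, ?_⟩, quant⟩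
  · intro n hn
    exact ⟨(mD_approx hk h hn).1, (mD_approx hk h hn).2, (m3_approx hk h hn).1,
      (m3_approx hk h hn).2⟩
  · rintro ⟨n, hn, h1⟩
    have h2 := (mD_approx hk h hn).2
    exact hback (mD n - (n : ℝ) ^ (-(1 / B))) (by linarith) (by linarith)
  · intro hQ
    obtain ⟨n, hn, h1⟩ := hex hQ
    exact ⟨n, hn, h1.trans_le (hfwd n hn)⟩
  · rintro ⟨n, hn, h1⟩
    have h2 := (m3_approx hk h hn).2
    have h3 : 1 / 3 < g3 := by linarith
    exact hback gD (by rw [hDeq]; exact lt_min hgam h3) le_rfl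

end Pool.Agent.Results.MP_33fb9b_co.FiniteVerification
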