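import Pool.Agent.Q273.HT.Main

/-!
# The gap above `1/3` for posets with two elements of nearly equal average height

The balance constant `balance` and the class `InD` (the class `𝒟`) are those of the problem.
`height P x` is the average position of `x` in a random linear extension of `P`.

1. `P(x before y) ≥ exp (-(1 + |h(x) - h(y)|))` for all incomparable `x`, `y` with
   `|h(x) - h(y)| ≤ 1`.
2. If two distinct elements satisfy `|h(x) - h(y)| ≤ 2/5` then they form a pair with
   `P(x before y)` and `P(y before x)` at least `1/3 + 1/1000`.  (The three-element poset `ℰ` has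
   two elements with `|h(x) - h(y)| = 2/3` and balance constant `1/3`.)
3. If two distinct elements satisfy `|h(x) - h(y)| ≤ 23/100` then both probabilities are at least
   `0.3489`, which is larger than the constant `β` of the problem.
4. Every finite poset with a nontrivial automorphism has balance constant at least `1/e`.
5. For every `c ≤ 1/3 + 1/1000`: the gap property `P ∈ 𝒟` or `δ(P) ≥ c` holds for all finite posets
   if it holds for those posets whose average heights are pairwise more than `2/5` apart (they have
   no nontrivial automorphism).  In the same way every poset with `δ(P) ≤ β` has average heights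
   which are pairwise more than `23/100` apart.

Proof.  The library has, for an incomparable pair, inequalities between the probability `b` of the
wrong order, the probability `R` of adjacency and the positive and negative parts of the mean gap
(log-concavity of the gap in random order preserving maps, exchange inequalities for small gaps);
one of them has an error term `1/n`, which is removed here by adding long chains on top of the
poset.
-/

set_option autoImplicit false

namespace Pool.Agent.Results.MP_33fb9b_co.HeightsNearlyEqual

open Pool.Agent.H13R3.WB Pool.Agent.Q273.HT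

theorem result :
    -- 1. the exponential bound
    (∀ (P : Type) [Fintype P] [PartialOrder P] (x y : P), ¬ x ≤ y → ¬ y ≤ x →
      |height P x - height P y| ≤ 1 →
      Real.exp (-(1 + |height P x - height P y|)) ≤ prob P x y) ∧
    -- 2. average heights at distance at most `2/5`
    (∀ (P : Type) [Fintype P] [PartialOrder P] (x y : P), x ≠ y →
      |height P x - height P y| ≤ 2 / 5 →
      1 / 3 + 1 / 1000 ≤ prob P x y ∧ 1 / 3 + 1 / 1000 ≤ prob P y x ∧
        1 / 3 + 1 / 1000 ≤ balance P) ∧
    -- 3. average heights at distance at most `23/100`
    ((5864893 + 27 * Real.sqrt 57) / 16812976 < (3489 / 10000 : ℝ) ∧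
      ∀ (P : Type) [Fintype P] [PartialOrder P] (x y : P), x ≠ y →
      |height P x - height P y| ≤ 23 / 100 →
      3489 / 10000 ≤ prob P x y ∧ 3489 / 10000 ≤ prob P y x ∧ 3489 / 10000 ≤ balance P) ∧
    -- 4. posets with a nontrivial automorphism
    (∀ (P : Type) [Fintype P] [PartialOrder P] (e : P ≃o P), e ≠ OrderIso.refl P →
      Real.exp (-1) ≤ balance P) ∧
    -- 5. the reduction
    (∀ c : ℝ, c ≤ 1 / 3 + 1 / 1000 →
      (∀ (P : Type) [Fintype P] [PartialOrder P],
        (∀ x y : P, x ≠ y → 2 / 5 < |height P x - height P y|) →
        (∀ e : P ≃o P, e = OrderIso.refl P) → InD P ∨ c ≤ balance P) →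
      ∀ (P : Type) [Fintype P] [PartialOrder P], InD P ∨ c ≤ balance P) := by
  refine ⟨fun P _ _ x y h1 h2 h => exp_bound h1 h2 h, fun P _ _ x y hne h => ?_, ⟨?_, fun P _ _ x y hne h => ?_⟩,
    fun P _ _ e he => aut_balance e he, fun c hc H P _ _ => ?_⟩
  · exact ⟨near_prob1 hne h, near_prob1 hne.symm (by rwa [abs_sub_comm]), near_balance1 hne h⟩
  · have h57 : Real.sqrt 57 < 7.55 := by
      rw [Real.sqrt_lt' (by norm_num)]; norm_num
    rw [div_lt_div_iff₀ (by norm_num) (by norm_num)]
    linarith
  · exact ⟨near_prob2 hne h, near_prob2 hne.symm (by rwa [abs_sub_comm]), near_balance2 hne h⟩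
  · by_cases hsep : ∀ x y : P, x ≠ y → 2 / 5 < |height P x - height P y|
    · refine H P hsep fun e => ?_
      by_contra he
      obtain ⟨x, hx⟩ : ∃ x, e x ≠ x := by
        by_contra hc
        push Not at hc
        exact he (by ext x; exact hc x)
      have h1 := hsep (e x) x hx
      rw [height_iso, sub_self, abs_zero] at h1
      linarith
    · push Not at hsep
      obtain ⟨x, y, hne, h⟩ := hsep
      exact Or.inr (hc.trans (near_balance1 hne h))

end Pool.Agent.Results.MP_33fb9b_co.HeightsNearlyEqual
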